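import Mathlib
import Pool.Agent.Helper10K9.FlagDefs

/-!
# Real matrices with the Clifford relations in dimension `2 ^ phi n`
-/

set_option autoImplicit false

namespace Pool.Agent.Helper59K9.Cliff

open Pool.Agent.Helper10K9.FS Matrix

/-- parity sign of the number of the lowest four binary digits that are `1` -/
def sgn (a : ℕ) : ℤ :=
  if (a.testBit 0 ^^ a.testBit 1 ^^ a.testBit 2 ^^ a.testBit 3) then -1 else 1

/-- signed permutation matrix `e_b ↦ ± e_{b xor m}` -/
def P (N m c : ℕ) : Matrix (Fin N) (Fin N) ℤ :=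
  fun a b => if a.val = b.val ^^^ m then sgn (b.val &&& c) else 0

def E8 : Fin 8 → Matrix (Fin 16) (Fin 16) ℤ :=
  ![P 16 1 1, P 16 2 3, P 16 3 6, P 16 4 7, P 16 5 4, P 16 6 5, P 16 7 10, P 16 15 2]

def E7 : Fin 7 → Matrix (Fin 8) (Fin 8) ℤ :=
  ![P 8 1 1, P 8 2 3, P 8 3 6, P 8 4 7, P 8 5 4, P 8 6 5, P 8 7 2]

def E3 : Fin 3 → Matrix (Fin 4) (Fin 4) ℤ :=
  ![P 4 1 1, P 4 2 3, P 4 3 2]

def E1 : Fin 1 → Matrix (Fin 2) (Fin 2) ℤ :=
  ![P 2 1 1]

def Om : Matrix (Fin 16) (Fin 16) ℤ := P 16 15 10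

set_option maxRecDepth 100000 in
theorem e8_tr : ∀ i, (E8 i)ᵀ = - E8 i := by decide +kernel

set_option maxRecDepth 100000 in
theorem e8_sq : ∀ i, (E8 i) * (E8 i) = - 1 := by decide +kernel

set_option maxRecDepth 100000 in
theorem e8_anti_lt : ∀ i j, i < j → (E8 i) * (E8 j) = - (E8 j * E8 i) := by decide +kernel

set_option maxRecDepth 100000 in
theorem om_tr : Omᵀ = Om := by decide +kernel

set_option maxRecDepth 100000 in
theorem om_sq : Om * Om = 1 := by decide +kernel

set_option maxRecDepth 100000 in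
theorem om_anti : ∀ i, Om * E8 i = - (E8 i * Om) := by decide +kernel

set_option maxRecDepth 100000 in
theorem e7_tr : ∀ i, (E7 i)ᵀ = - E7 i := by decide +kernel

set_option maxRecDepth 100000 in
theorem e7_sq : ∀ i, (E7 i) * (E7 i) = - 1 := by decide +kernel

set_option maxRecDepth 100000 in
theorem e7_anti_lt : ∀ i j, i < j → (E7 i) * (E7 j) = - (E7 j * E7 i) := by decide +kernel

set_option maxRecDepth 100000 in
theorem e3_tr : ∀ i, (E3 i)ᵀ = - E3 i := by decide +kernel

set_option maxRecDepth 100000 in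
theorem e3_sq : ∀ i, (E3 i) * (E3 i) = - 1 := by decide +kernel

set_option maxRecDepth 100000 in
theorem e3_anti_lt : ∀ i j, i < j → (E3 i) * (E3 j) = - (E3 j * E3 i) := by decide +kernel

set_option maxRecDepth 100000 in
theorem e1_tr : ∀ i, (E1 i)ᵀ = - E1 i := by decide +kernel

set_option maxRecDepth 100000 in
theorem e1_sq : ∀ i, (E1 i) * (E1 i) = - 1 := by decide +kernel

theorem anti_of_lt {R : Type*} [Ring R] {n N : ℕ} {J : Fin n → Matrix (Fin N) (Fin N) R}
    (h : ∀ i j, i < j → (J i) * (J j) = - (J j * J i)) :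
    ∀ i j, i ≠ j → (J i) * (J j) = - (J j * J i) := by
  intro i j hij
  rcases lt_or_gt_of_ne hij with h1 | h1
  · exact h i j h1
  · rw [h j i h1, neg_neg]

/-- existence of `n` real antisymmetric, anticommuting complex structures of size `N` -/
def Cl (n N : ℕ) : Prop :=
  ∃ J : Fin n → Matrix (Fin N) (Fin N) ℝ, (∀ i, (J i)ᵀ = - J i) ∧ (∀ i, J i * J i = -1) ∧
    ∀ i j, i ≠ j → J i * J j = - (J j * J i)

theorem Cl.mono {n m N : ℕ} (h : Cl n N) (hm : m ≤ n) : Cl m N := by
  obtain ⟨J, h1, h2, h3⟩ := h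
  refine ⟨fun i => J (Fin.castLE hm i), fun i => h1 _, fun i => h2 _, fun i j hij => h3 _ _ ?_⟩
  intro h
  exact hij (Fin.castLE_injective hm h)

theorem Cl.of_int {n N : ℕ} (J : Fin n → Matrix (Fin N) (Fin N) ℤ)
    (h1 : ∀ i, (J i)ᵀ = - J i) (h2 : ∀ i, J i * J i = -1)
    (h3 : ∀ i j, i ≠ j → J i * J j = - (J j * J i)) : Cl n N := by
  let f := (Int.castRingHom ℝ)
  refine ⟨fun i => f.mapMatrix (J i), ?_, ?_, ?_⟩
  · intro i
    rw [← map_neg, ← h1 i]
    rfl
  · intro i
    rw [← map_mul, h2 i, map_neg, map_one]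
  · intro i j hij
    rw [← map_mul, h3 i j hij, map_neg, map_mul]

theorem Cl.step {n N : ℕ} (h : Cl n N) : Cl (n + 8) (N * 16) := by
  obtain ⟨J, h1, h2, h3⟩ := h
  let f := (Int.castRingHom ℝ)
  have o1 : (f.mapMatrix Om)ᵀ = f.mapMatrix Om := by
    conv_rhs => rw [← om_tr]
    rfl
  have o2 : f.mapMatrix Om * f.mapMatrix Om = 1 := by
    rw [← map_mul, om_sq, map_one]
  have o3 : ∀ i, f.mapMatrix Om * f.mapMatrix (E8 i) = - (f.mapMatrix (E8 i) * f.mapMatrix Om) := by
    intro i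
    rw [← map_mul, om_anti, map_neg, map_mul]
  have k1 : ∀ i, (f.mapMatrix (E8 i))ᵀ = - f.mapMatrix (E8 i) := by
    intro i
    rw [← map_neg, ← e8_tr i]
    rfl
  have k2 : ∀ i, f.mapMatrix (E8 i) * f.mapMatrix (E8 i) = -1 := by
    intro i
    rw [← map_mul, e8_sq i, map_neg, map_one]
  have k3 : ∀ i j, i ≠ j → f.mapMatrix (E8 i) * f.mapMatrix (E8 j) =
      - (f.mapMatrix (E8 j) * f.mapMatrix (E8 i)) := by
    intro i j hij
    rw [← map_mul, anti_of_lt e8_anti_lt i j hij, map_neg, map_mul]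
  generalize f.mapMatrix Om = W at o1 o2 o3
  generalize hE : (fun i => f.mapMatrix (E8 i)) = E
  have hE' : ∀ i, f.mapMatrix (E8 i) = E i := fun i => by rw [← hE]
  simp only [hE'] at o3 k1 k2 k3
  let e : Fin N × Fin 16 ≃ Fin (N * 16) := finProdFinEquiv
  let K : Fin n ⊕ Fin 8 → Matrix (Fin N × Fin 16) (Fin N × Fin 16) ℝ :=
    Sum.elim (fun i => kroneckerMap (· * ·) (J i) W) (fun j => kroneckerMap (· * ·) (1 : Matrix (Fin N) (Fin N) ℝ) (E j))
  have K1 : ∀ s, (K s)ᵀ = - K s := by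
    rintro (i | j)
    · ext ⟨a, b⟩ ⟨c, d⟩
      have := congrFun (congrFun (h1 i) a) c
      have h' := congrFun (congrFun o1 b) d
      simp only [Matrix.transpose_apply, Matrix.neg_apply] at this h'
      simp only [K, Sum.elim_inl, Matrix.transpose_apply, kroneckerMap_apply, Matrix.neg_apply]
      rw [this, h']
      ring
    · ext ⟨a, b⟩ ⟨c, d⟩
      have := congrFun (congrFun (k1 j) b) d
      have h' : (1 : Matrix (Fin N) (Fin N) ℝ) c a = (1 : Matrix (Fin N) (Fin N) ℝ) a c := by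
        rw [Matrix.one_apply, Matrix.one_apply]
        simp only [eq_comm]
      simp only [Matrix.transpose_apply, Matrix.neg_apply] at this
      simp only [K, Sum.elim_inr, Matrix.transpose_apply, kroneckerMap_apply, Matrix.neg_apply]
      rw [this, h']
      ring
  have mulK : ∀ (A B : Matrix (Fin N) (Fin N) ℝ) (C D : Matrix (Fin 16) (Fin 16) ℝ),
      kroneckerMap (· * ·) A C * kroneckerMap (· * ·) B D = kroneckerMap (· * ·) (A * B) (C * D) := by
    intro A B C D
    exact (Matrix.mul_kronecker_mul A B C D).symm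
  have oneK : kroneckerMap (· * ·) (1 : Matrix (Fin N) (Fin N) ℝ) (1 : Matrix (Fin 16) (Fin 16) ℝ) = 1 :=
    Matrix.one_kronecker_one
  have negL : ∀ (A : Matrix (Fin N) (Fin N) ℝ) (C : Matrix (Fin 16) (Fin 16) ℝ),
      kroneckerMap (· * ·) (-A) C = - kroneckerMap (· * ·) A C := by
    intro A C
    ext ⟨a, b⟩ ⟨c, d⟩
    simp
  have negR : ∀ (A : Matrix (Fin N) (Fin N) ℝ) (C : Matrix (Fin 16) (Fin 16) ℝ),
      kroneckerMap (· * ·) A (-C) = - kroneckerMap (· * ·) A C := by
    intro A C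
    ext ⟨a, b⟩ ⟨c, d⟩
    simp
  have K2 : ∀ s, K s * K s = -1 := by
    rintro (i | j)
    · simp only [K, Sum.elim_inl]
      rw [mulK, h2, o2, negL, oneK]
    · simp only [K, Sum.elim_inr]
      rw [mulK, k2, negR, one_mul, oneK]
  have K3 : ∀ s t, s ≠ t → K s * K t = - (K t * K s) := by
    rintro (i | j) (i' | j') hst
    · have : i ≠ i' := fun h => hst (by rw [h])
      simp only [K, Sum.elim_inl]
      rw [mulK, mulK, h3 i i' this, negL]
    · simp only [K, Sum.elim_inl, Sum.elim_inr]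
      rw [mulK, mulK, o3, negR, mul_one, one_mul]
    · simp only [K, Sum.elim_inl, Sum.elim_inr]
      rw [mulK, mulK, o3, negR, mul_one, one_mul, neg_neg]
    · have : j ≠ j' := fun h => hst (by rw [h])
      simp only [K, Sum.elim_inr]
      rw [mulK, mulK, k3 j j' this, negR]
  let g := Matrix.reindexAlgEquiv ℝ ℝ e
  refine ⟨fun i => g (K (finSumFinEquiv.symm i)), ?_, ?_, ?_⟩
  · intro i
    rw [← map_neg, ← K1]
    rfl
  · intro i
    rw [← map_mul, K2, map_neg, map_one]
  · intro i j hij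
    rw [← map_mul, K3 _ _ (fun h => hij (finSumFinEquiv.symm.injective h)), map_neg, map_mul]

theorem phi_succ (n : ℕ) : phi (n + 1) = phi n +
    if ((n + 1) % 8 = 0 ∨ (n + 1) % 8 = 1 ∨ (n + 1) % 8 = 2 ∨ (n + 1) % 8 = 4) then 1 else 0 := by
  have : Finset.Icc 1 (n + 1) = insert (n + 1) (Finset.Icc 1 n) := by
    ext x
    simp only [Finset.mem_Icc, Finset.mem_insert]
    omega
  unfold phi
  rw [this, Finset.filter_insert]
  split_ifs with h
  · rw [Finset.card_insert_of_notMem]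
    simp
  · rfl

theorem phi_add_eight (n : ℕ) : phi (n + 8) = phi n + 4 := by
  have h : n % 8 = 0 ∨ n % 8 = 1 ∨ n % 8 = 2 ∨ n % 8 = 3 ∨ n % 8 = 4 ∨ n % 8 = 5 ∨ n % 8 = 6 ∨
      n % 8 = 7 := by omega
  rw [phi_succ (n + 7), phi_succ (n + 6), phi_succ (n + 5), phi_succ (n + 4), phi_succ (n + 3),
    phi_succ (n + 2), phi_succ (n + 1), phi_succ n]
  rcases h with h | h | h | h | h | h | h | h <;> simp [Nat.add_mod, h]

theorem cl_all (n : ℕ) : Cl n (2 ^ phi n) := by
  induction n using Nat.strong_induction_on with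
  | _ n ih =>
    by_cases hn : 8 ≤ n
    · obtain ⟨m, rfl⟩ := Nat.exists_eq_add_of_le' hn
      rw [phi_add_eight, pow_add]
      exact (ih m (by omega)).step
    · have c7 : Cl 7 8 := Cl.of_int E7 e7_tr e7_sq (anti_of_lt e7_anti_lt)
      have c3 : Cl 3 4 := Cl.of_int E3 e3_tr e3_sq (anti_of_lt e3_anti_lt)
      have c1 : Cl 1 2 := Cl.of_int E1 e1_tr e1_sq (by
        intro i j hij; exact absurd (Subsingleton.elim i j) hij)
      have p0 : phi 0 = 0 := by decide
      have p1 : phi 1 = 1 := by decide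
      have p2 : phi 2 = 2 := by decide
      have p3 : phi 3 = 2 := by decide
      have p4 : phi 4 = 3 := by decide
      have p5 : phi 5 = 3 := by decide
      have p6 : phi 6 = 3 := by decide
      have p7 : phi 7 = 3 := by decide
      interval_cases n
      · rw [p0]
        exact ⟨fun i => i.elim0, fun i => i.elim0, fun i => i.elim0, fun i => i.elim0⟩
      · rw [p1]; exact c1
      · rw [p2]; exact c3.mono (by norm_num)
      · rw [p3]; exact c3
      · rw [p4]; exact c7.mono (by norm_num)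
      · rw [p5]; exact c7.mono (by norm_num)
      · rw [p6]; exact c7.mono (by norm_num)
      · rw [p7]; exact c7

theorem exists_clifford (n : ℕ) :
    ∃ J : Fin n → Matrix (Fin (2 ^ phi n)) (Fin (2 ^ phi n)) ℝ,
      (∀ i, (J i)ᵀ = - J i) ∧ (∀ i, J i * J i = -1) ∧
        ∀ i j, i ≠ j → J i * J j = - (J j * J i) := cl_all n

end Pool.Agent.Helper59K9.Cliff
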