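import Mathlib
import Pool.Agent.Helper10K9.FlagDefs
import Pool.Agent.Helper59K9.Cliff

/-!
# Transverse spheres of full flags from Clifford matrices
-/

set_option autoImplicit false

namespace Pool.Agent.Helper59K9.FlagSphere

open Pool.Agent.Helper10K9.FS Matrix
open scoped RealInnerProductSpace

/-! ### Topology of the flag space -/

theorem proj_injective (d : ℕ) : Function.Injective (FullFlag.proj (d := d)) := by
  intro F G h
  have h1 : F.sub = G.sub := by
    funext i
    have := congrFun h i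
    exact Submodule.starProjection_inj.1 this
  cases F
  cases G
  simp only at h1
  subst h1
  rfl

theorem proj_continuous (d : ℕ) : Continuous (FullFlag.proj (d := d)) := continuous_induced_dom

instance (d : ℕ) : T2Space (FullFlag d) :=
  T2Space.of_injective_continuous (proj_injective d) (proj_continuous d)

theorem continuous_flag_iff {X : Type*} [TopologicalSpace X] {d : ℕ} (f : X → FullFlag d) :
    Continuous f ↔ ∀ (i : Fin (d + 1)) (v : E d),
      Continuous fun x => ((f x).sub i).starProjection v := by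
  rw [continuous_induced_rng, continuous_pi_iff]
  refine forall_congr' fun i => ?_
  rw [continuous_clm_apply]
  rfl

/-- a continuous family of pairwise transverse flags over the sphere is a transverse sphere -/
theorem sphere_of_map {n d : ℕ} (hd : 2 ≤ d) (f : Metric.sphere (0 : E (n + 1)) 1 → FullFlag d)
    (hf : Continuous f) (ht : ∀ x y, x ≠ y → Transverse (f x) (f y)) :
    ∃ S : Set (FullFlag d), IsTransverseSphere n S := by
  have hinj : Function.Injective f := by
    intro x y hxy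
    by_contra hne
    have h1 := ht x y hne
    rw [hxy] at h1
    have h2 := h1 ⟨1, by omega⟩
    have hle : (f y).sub ⟨1, by omega⟩ ≤ (f y).sub (Fin.rev ⟨1, by omega⟩) := by
      apply (f y).mono
      rw [Fin.le_def, Fin.val_rev]
      simp only
      omega
    rw [inf_eq_left.2 hle] at h2
    have h3 := (f y).dim ⟨1, by omega⟩
    rw [h2, finrank_bot] at h3
    simp at h3
  refine ⟨Set.range f, ?_, ?_⟩
  · rintro _ ⟨x, rfl⟩ _ ⟨y, rfl⟩ hne
    exact ht x y (fun h => hne (by rw [h]))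
  · exact ⟨(hf.isClosedEmbedding hinj).isEmbedding.toHomeomorph.symm⟩

/-! ### Spans of initial segments of a family -/

section Span

variable {d M : ℕ}

/-- span of the first `k` members of a family -/
def sp (g : Fin M → E d) (k : ℕ) : Submodule ℝ (E d) :=
  Submodule.span ℝ (g '' {j | (j : ℕ) < k})

theorem sp_mono (g : Fin M → E d) {k l : ℕ} (h : k ≤ l) : sp g k ≤ sp g l :=
  Submodule.span_mono (Set.image_mono fun _ hj => lt_of_lt_of_le hj h)

theorem mem_sp (g : Fin M → E d) {k : ℕ} {j : Fin M} (h : (j : ℕ) < k) : g j ∈ sp g k :=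
  Submodule.subset_span ⟨j, h, rfl⟩

theorem finrank_sp {g : Fin M → E d} (hg : LinearIndependent ℝ g) {k : ℕ} (hk : k ≤ M) :
    Module.finrank ℝ (sp g k) = k := by
  have h1 : g '' {j | (j : ℕ) < k} = Set.range (g ∘ (Subtype.val : {j : Fin M // (j : ℕ) < k} → Fin M)) := by
    rw [Set.range_comp, Subtype.range_coe_subtype]
  have h2 := finrank_span_eq_card (hg.comp (Subtype.val : {j : Fin M // (j : ℕ) < k} → Fin M)
    Subtype.val_injective)
  unfold sp
  rw [h1, h2]
  rw [Fintype.card_subtype]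
  have : (Finset.univ.filter fun j : Fin M => (j : ℕ) < k) =
      Finset.univ.map (Fin.castLEEmb hk) := by
    ext j
    simp only [Finset.mem_filter, Finset.mem_univ, true_and, Finset.mem_map, Fin.castLEEmb_apply]
    constructor
    · intro h
      exact ⟨⟨j, h⟩, Fin.ext rfl⟩
    · rintro ⟨a, rfl⟩
      exact a.2
  rw [this, Finset.card_map, Finset.card_univ, Fintype.card_fin]

theorem sp_orth {u w : Fin M → E d} (h : ∀ i j, ⟪u i, w j⟫ = 0) (k l : ℕ) :
    sp u k ≤ (sp w l)ᗮ := by
  rw [← Submodule.isOrtho_iff_le]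
  unfold sp
  rw [Submodule.isOrtho_span]
  rintro _ ⟨i, -, rfl⟩ _ ⟨j, -, rfl⟩
  exact h i j

theorem proj_sp {u : Fin M → E d} (hu : Orthonormal ℝ u) (k : ℕ) (v : E d) :
    (sp u k).starProjection v = ∑ j : Fin M, (if (j : ℕ) < k then ⟪u j, v⟫ • u j else 0) := by
  symm
  symm
  apply Submodule.eq_starProjection_of_mem_orthogonal
  · apply Submodule.sum_mem
    intro j _
    split_ifs with h
    · exact Submodule.smul_mem _ _ (mem_sp u h)
    · exact Submodule.zero_mem _
  · rw [Submodule.mem_orthogonal]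
    intro z hz
    unfold sp at hz
    induction hz using Submodule.span_induction with
    | mem x hx =>
      obtain ⟨i, hi, rfl⟩ := hx
      rw [inner_sub_right, inner_sum]
      rw [Finset.sum_eq_single i]
      · have hi' : (i : ℕ) < k := hi
        rw [if_pos hi', inner_smul_right, real_inner_self_eq_norm_sq, hu.1 i]
        ring
      · intro j _ hji
        split_ifs
        · rw [inner_smul_right, hu.2 (Ne.symm hji), mul_zero]
        · exact inner_zero_right _
      · intro h
        exact absurd (Finset.mem_univ i) h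
    | zero => exact inner_zero_left _
    | add x y _ _ hx hy => rw [inner_add_left, hx, hy, add_zero]
    | smul a x _ hx => rw [inner_smul_left, hx, mul_zero]

end Span

/-! ### The flag built from two orthogonal orthonormal families -/

section Flag

variable {M : ℕ}

/-- the flag with `F^k = span (u_j : j < k)` and `F^(d-k) = (span (w_j : j < k))ᗮ`, `k ≤ M` -/
noncomputable def mkFlag (u w : Fin M → E (M + (M + 1))) (hu : Orthonormal ℝ u)
    (hw : Orthonormal ℝ w) (huw : ∀ i j, ⟪u i, w j⟫ = 0) : FullFlag (M + (M + 1)) where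
  sub i := if (i : ℕ) ≤ M then sp u i else (sp w (M + (M + 1) - i))ᗮ
  mono := by
    intro i j hij
    have hij' : (i : ℕ) ≤ j := hij
    dsimp only
    split_ifs with h1 h2 h2
    · exact sp_mono u hij'
    · exact sp_orth huw _ _
    · omega
    · exact Submodule.orthogonal_le (sp_mono w (by omega))
  dim := by
    intro i
    have hi := i.2
    by_cases h1 : (i : ℕ) ≤ M
    · rw [if_pos h1]
      exact finrank_sp hu.linearIndependent h1
    · rw [if_neg h1]
      have h2 := Submodule.finrank_add_finrank_orthogonal (sp w (M + (M + 1) - i))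
      rw [finrank_sp hw.linearIndependent (by omega), finrank_euclideanSpace, Fintype.card_fin] at h2
      omega

theorem transverse_mkFlag {u w u' w' : Fin M → E (M + (M + 1))} (hu : Orthonormal ℝ u)
    (hw : Orthonormal ℝ w) (huw : ∀ i j, ⟪u i, w j⟫ = 0) (hu' : Orthonormal ℝ u')
    (hw' : Orthonormal ℝ w') (huw' : ∀ i j, ⟪u' i, w' j⟫ = 0)
    (h1 : ∀ k, sp u k ⊓ (sp w' k)ᗮ = ⊥) (h2 : ∀ k, sp u' k ⊓ (sp w k)ᗮ = ⊥) :
    Transverse (mkFlag u w hu hw huw) (mkFlag u' w' hu' hw' huw') := by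
  intro i
  have hi := i.2
  have hr : (i.rev : ℕ) = M + (M + 1) - i := by
    rw [Fin.val_rev]
    omega
  simp only [mkFlag]
  by_cases h : (i : ℕ) ≤ M
  · rw [if_pos h, if_neg (by omega), hr]
    have : M + (M + 1) - (M + (M + 1) - (i : ℕ)) = i := by omega
    rw [this]
    exact h1 i
  · rw [if_neg h, if_pos (by omega), hr, inf_comm]
    exact h2 _

theorem continuous_mkFlag {X : Type*} [TopologicalSpace X] (u w : X → Fin M → E (M + (M + 1)))
    (hu : ∀ x, Orthonormal ℝ (u x)) (hw : ∀ x, Orthonormal ℝ (w x))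
    (huw : ∀ x i j, ⟪u x i, w x j⟫ = 0) (hcu : ∀ i, Continuous fun x => u x i)
    (hcw : ∀ i, Continuous fun x => w x i) :
    Continuous fun x => mkFlag (u x) (w x) (hu x) (hw x) (huw x) := by
  rw [continuous_flag_iff]
  intro i v
  simp only [mkFlag]
  by_cases h : (i : ℕ) ≤ M
  · simp only [if_pos h]
    have : (fun x => (sp (u x) (i : ℕ)).starProjection v) = fun x =>
        ∑ j : Fin M, (if (j : ℕ) < i then ⟪u x j, v⟫ • u x j else 0) := by
      funext x
      exact proj_sp (hu x) _ v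
    simp only [this]
    refine continuous_finsetSum _ fun j _ => ?_
    split_ifs
    · exact Continuous.smul (Continuous.inner (𝕜 := ℝ) (hcu j) continuous_const) (hcu j)
    · exact continuous_const
  · simp only [if_neg h]
    have : (fun x => ((sp (w x) (M + (M + 1) - (i : ℕ)))ᗮ).starProjection v) = fun x =>
        v - ∑ j : Fin M, (if (j : ℕ) < (M + (M + 1) - (i : ℕ)) then ⟪w x j, v⟫ • w x j else 0) := by
      funext x
      rw [Submodule.starProjection_orthogonal_val, proj_sp (hw x)]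
    simp only [this]
    refine continuous_const.sub (continuous_finsetSum _ fun j _ => ?_)
    split_ifs
    · exact Continuous.smul (Continuous.inner (𝕜 := ℝ) (hcw j) continuous_const) (hcw j)
    · exact continuous_const

end Flag

/-! ### The Clifford construction -/

section Clifford

variable {n M : ℕ}

/-- the Clifford action of `x` -/
noncomputable def Q (J : Fin n → Matrix (Fin (M + 1)) (Fin (M + 1)) ℝ) (x : E (n + 1)) :
    Matrix (Fin (M + 1)) (Fin (M + 1)) ℝ :=
  x 0 • (1 : Matrix (Fin (M + 1)) (Fin (M + 1)) ℝ) + ∑ i : Fin n, x i.succ • J i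

theorem Q_mul {J : Fin n → Matrix (Fin (M + 1)) (Fin (M + 1)) ℝ}
    (h1 : ∀ i, (J i)ᵀ = - J i) (h2 : ∀ i, J i * J i = -1)
    (h3 : ∀ i j, i ≠ j → J i * J j = - (J j * J i)) (x : E (n + 1)) :
    (Q J x)ᵀ * Q J x = (‖x‖ ^ 2) • (1 : Matrix (Fin (M + 1)) (Fin (M + 1)) ℝ) := by
  have ht : (Q J x)ᵀ = x 0 • (1 : Matrix (Fin (M + 1)) (Fin (M + 1)) ℝ) -
      ∑ i : Fin n, x i.succ • J i := by
    unfold Q
    rw [transpose_add, transpose_smul, transpose_one, transpose_sum, sub_eq_add_neg,
      ← Finset.sum_neg_distrib]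
    congr 1
    refine Finset.sum_congr rfl fun i _ => ?_
    rw [transpose_smul, h1, smul_neg]
  have hs : (∑ i : Fin n, x i.succ • J i) * (∑ i : Fin n, x i.succ • J i) =
      - ((∑ i : Fin n, (x i.succ) ^ 2) • (1 : Matrix (Fin (M + 1)) (Fin (M + 1)) ℝ)) := by
    have e1 : (∑ i : Fin n, x i.succ • J i) * (∑ i : Fin n, x i.succ • J i) =
        ∑ i : Fin n, ∑ j : Fin n, (x i.succ * x j.succ) • (J i * J j) := by
      rw [Finset.sum_mul]
      refine Finset.sum_congr rfl fun i _ => ?_
      rw [Finset.mul_sum]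
      refine Finset.sum_congr rfl fun j _ => ?_
      rw [smul_mul_smul_comm]
    have e2 : (2 : ℝ) • ((∑ i : Fin n, x i.succ • J i) * (∑ i : Fin n, x i.succ • J i)) =
        (2 : ℝ) • (- ((∑ i : Fin n, (x i.succ) ^ 2) • (1 : Matrix (Fin (M + 1)) (Fin (M + 1)) ℝ))) := by
      have e3 : (2 : ℝ) • ((∑ i : Fin n, x i.succ • J i) * (∑ i : Fin n, x i.succ • J i)) =
          ∑ i : Fin n, ∑ j : Fin n, (x i.succ * x j.succ) • (J i * J j + J j * J i) := by
        rw [two_smul]
        conv_lhs =>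
          arg 1
          rw [e1]
        conv_lhs =>
          arg 2
          rw [e1, Finset.sum_comm]
        rw [← Finset.sum_add_distrib]
        refine Finset.sum_congr rfl fun i _ => ?_
        rw [← Finset.sum_add_distrib]
        refine Finset.sum_congr rfl fun j _ => ?_
        rw [smul_add, mul_comm (x j.succ)]
      rw [e3, Finset.sum_smul, ← Finset.sum_neg_distrib, Finset.smul_sum]
      refine Finset.sum_congr rfl fun i _ => ?_
      rw [Finset.sum_eq_single i]
      · rw [h2, ← two_smul ℝ, smul_comm, smul_neg, pow_two]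
      · intro j _ hji
        rw [h3 i j (Ne.symm hji), neg_add_cancel, smul_zero]
      · intro h
        exact absurd (Finset.mem_univ i) h
    exact smul_right_injective _ (two_ne_zero) e2
  rw [ht]
  unfold Q
  rw [sub_mul, mul_add, mul_add, hs, EuclideanSpace.norm_sq_eq, Fin.sum_univ_succ, add_smul]
  simp only [Real.norm_eq_abs, mul_one, smul_mul_assoc, one_mul,
    mul_smul_comm, pow_two, abs_mul_abs_self, smul_smul]
  abel

/-- the vectors `(c, x.(c,0))` -/
noncomputable def G (J : Fin n → Matrix (Fin (M + 1)) (Fin (M + 1)) ℝ) (x : E (n + 1))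
    (c : Fin M → ℝ) : E (M + (M + 1)) :=
  WithLp.toLp 2 (Fin.append c (Q J x *ᵥ (Fin.snoc (α := fun _ => ℝ) c 0)))

theorem inner_G (J : Fin n → Matrix (Fin (M + 1)) (Fin (M + 1)) ℝ) (x y : E (n + 1))
    (c c' : Fin M → ℝ) :
    ⟪G J x c, G J y c'⟫ = c ⬝ᵥ c' + (Q J x *ᵥ (Fin.snoc (α := fun _ => ℝ) c 0)) ⬝ᵥ
      (Q J y *ᵥ (Fin.snoc (α := fun _ => ℝ) c' 0)) := by
  unfold G
  rw [EuclideanSpace.inner_toLp_toLp, star_trivial, dotProduct_comm]
  simp only [dotProduct]
  rw [Fin.sum_univ_add]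
  simp only [Fin.append_left, Fin.append_right]

theorem snoc_dot (c c' : Fin M → ℝ) :
    (Fin.snoc (α := fun _ => ℝ) c 0) ⬝ᵥ (Fin.snoc (α := fun _ => ℝ) c' 0) = c ⬝ᵥ c' := by
  simp only [dotProduct]
  rw [Fin.sum_univ_castSucc]
  simp

theorem Q_neg (J : Fin n → Matrix (Fin (M + 1)) (Fin (M + 1)) ℝ) (x : E (n + 1)) :
    Q J (-x) = - Q J x := by
  unfold Q
  simp only [PiLp.neg_apply, neg_smul, Finset.sum_neg_distrib, neg_add_rev]
  abel

theorem Q_sub (J : Fin n → Matrix (Fin (M + 1)) (Fin (M + 1)) ℝ) (x y : E (n + 1)) :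
    Q J (x - y) = Q J x - Q J y := by
  unfold Q
  simp only [PiLp.sub_apply, sub_smul, Finset.sum_sub_distrib]
  abel

/-- the hypothesis on `J` -/
def Good (J : Fin n → Matrix (Fin (M + 1)) (Fin (M + 1)) ℝ) : Prop :=
  (∀ i, (J i)ᵀ = - J i) ∧ (∀ i, J i * J i = -1) ∧ ∀ i j, i ≠ j → J i * J j = - (J j * J i)

theorem Q_dot {J : Fin n → Matrix (Fin (M + 1)) (Fin (M + 1)) ℝ} (hJ : Good J) (x : E (n + 1))
    (v w : Fin (M + 1) → ℝ) : (Q J x *ᵥ v) ⬝ᵥ (Q J x *ᵥ w) = ‖x‖ ^ 2 * (v ⬝ᵥ w) := by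
  rw [dotProduct_mulVec, ← mulVec_transpose, mulVec_mulVec, Q_mul hJ.1 hJ.2.1 hJ.2.2 x,
    smul_mulVec, one_mulVec, smul_dotProduct, smul_eq_mul]

theorem G_add (J : Fin n → Matrix (Fin (M + 1)) (Fin (M + 1)) ℝ) (x : E (n + 1))
    (c c' : Fin M → ℝ) : G J x (c + c') = G J x c + G J x c' := by
  have h : (Fin.snoc (α := fun _ => ℝ) (c + c') 0) =
      (Fin.snoc (α := fun _ => ℝ) c 0) + (Fin.snoc (α := fun _ => ℝ) c' 0) := by
    ext i
    refine Fin.lastCases ?_ (fun j => ?_) i <;> simp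
  unfold G
  rw [h, mulVec_add, ← WithLp.toLp_add]
  congr 1
  ext i
  refine Fin.addCases (fun j => ?_) (fun j => ?_) i <;> simp

theorem G_smul (J : Fin n → Matrix (Fin (M + 1)) (Fin (M + 1)) ℝ) (x : E (n + 1))
    (r : ℝ) (c : Fin M → ℝ) : G J x (r • c) = r • G J x c := by
  have h : (Fin.snoc (α := fun _ => ℝ) (r • c) 0) =
      r • (Fin.snoc (α := fun _ => ℝ) c 0) := by
    ext i
    refine Fin.lastCases ?_ (fun j => ?_) i <;> simp
  unfold G
  rw [h, mulVec_smul, ← WithLp.toLp_smul]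
  congr 1
  ext i
  refine Fin.addCases (fun j => ?_) (fun j => ?_) i <;> simp

theorem G_zero (J : Fin n → Matrix (Fin (M + 1)) (Fin (M + 1)) ℝ) (x : E (n + 1)) :
    G J x 0 = 0 := by
  have := G_smul J x 0 0
  rwa [zero_smul, zero_smul] at this

/-- the orthonormal family -/
noncomputable def b (J : Fin n → Matrix (Fin (M + 1)) (Fin (M + 1)) ℝ) (x : E (n + 1))
    (j : Fin M) : E (M + (M + 1)) :=
  (Real.sqrt 2)⁻¹ • G J x (Pi.single j 1)

theorem inner_b_self {J : Fin n → Matrix (Fin (M + 1)) (Fin (M + 1)) ℝ} (hJ : Good J)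
    {x : E (n + 1)} (hx : ‖x‖ = 1) (i j : Fin M) :
    ⟪b J x i, b J x j⟫ = if i = j then 1 else 0 := by
  unfold b
  rw [inner_smul_left, inner_smul_right, inner_G, Q_dot hJ, snoc_dot, hx]
  simp only [conj_trivial, single_dotProduct, one_mul, Pi.single_apply, one_pow]
  have h2 : (Real.sqrt 2)⁻¹ * (Real.sqrt 2)⁻¹ = (2 : ℝ)⁻¹ := by
    rw [← mul_inv, Real.mul_self_sqrt (by norm_num)]
  rw [← mul_assoc, h2]
  split_ifs <;> norm_num

theorem inner_b_neg {J : Fin n → Matrix (Fin (M + 1)) (Fin (M + 1)) ℝ} (hJ : Good J)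
    {x : E (n + 1)} (hx : ‖x‖ = 1) (i j : Fin M) :
    ⟪b J x i, b J (-x) j⟫ = 0 := by
  unfold b
  rw [inner_smul_left, inner_smul_right, inner_G, Q_neg, neg_mulVec, dotProduct_neg, Q_dot hJ,
    snoc_dot, hx]
  ring

theorem orthonormal_b {J : Fin n → Matrix (Fin (M + 1)) (Fin (M + 1)) ℝ} (hJ : Good J)
    {x : E (n + 1)} (hx : ‖x‖ = 1) : Orthonormal ℝ (b J x) := by
  rw [orthonormal_iff_ite]
  exact inner_b_self hJ hx

theorem mem_sp_b {J : Fin n → Matrix (Fin (M + 1)) (Fin (M + 1)) ℝ}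
    {x : E (n + 1)} {k : ℕ} {v : E (M + (M + 1))} (hv : v ∈ sp (b J x) k) :
    ∃ c : Fin M → ℝ, (∀ j : Fin M, k ≤ (j : ℕ) → c j = 0) ∧ v = G J x c := by
  unfold sp at hv
  induction hv using Submodule.span_induction with
  | mem y hy =>
    obtain ⟨i, hi, rfl⟩ := hy
    have hi' : (i : ℕ) < k := hi
    refine ⟨(Real.sqrt 2)⁻¹ • Pi.single i 1, fun j hj => ?_, ?_⟩
    · have : j ≠ i := by
        rintro rfl
        omega
      simp [this]
    · rw [G_smul]
      rfl
  | zero => exact ⟨0, fun _ _ => rfl, (G_zero J x).symm⟩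
  | add y z _ _ hy hz =>
    obtain ⟨c, hc, rfl⟩ := hy
    obtain ⟨c', hc', rfl⟩ := hz
    refine ⟨c + c', fun j hj => ?_, (G_add J x c c').symm⟩
    rw [Pi.add_apply, hc j hj, hc' j hj, add_zero]
  | smul a y _ hy =>
    obtain ⟨c, hc, rfl⟩ := hy
    refine ⟨a • c, fun j hj => ?_, (G_smul J x a c).symm⟩
    rw [Pi.smul_apply, hc j hj, smul_zero]

theorem G_mem_sp {J : Fin n → Matrix (Fin (M + 1)) (Fin (M + 1)) ℝ}
    {x : E (n + 1)} {k : ℕ} {c : Fin M → ℝ} (hc : ∀ j : Fin M, k ≤ (j : ℕ) → c j = 0) :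
    G J x c ∈ sp (b J x) k := by
  have hs : c = ∑ j : Fin M, c j • Pi.single j (1 : ℝ) := by
    ext i
    simp [Finset.sum_apply, Pi.single_apply]
  have hG : G J x c = ∑ j : Fin M, c j • G J x (Pi.single j 1) := by
    let L : (Fin M → ℝ) →ₗ[ℝ] E (M + (M + 1)) :=
      { toFun := G J x, map_add' := G_add J x, map_smul' := G_smul J x }
    have h1 : L c = ∑ j : Fin M, c j • L (Pi.single j 1) := by
      conv_lhs => rw [hs]
      rw [map_sum]
      simp only [map_smul]
    exact h1
  rw [hG]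
  apply Submodule.sum_mem
  intro j _
  by_cases hj : (j : ℕ) < k
  · have h2 : G J x (Pi.single j 1) = Real.sqrt 2 • b J x j := by
      unfold b
      rw [smul_smul, mul_inv_cancel₀ (by positivity), one_smul]
    rw [h2]
    exact Submodule.smul_mem _ _ (Submodule.smul_mem _ _ (mem_sp _ hj))
  · rw [hc j (not_lt.1 hj), zero_smul]
    exact Submodule.zero_mem _

theorem sp_inf {J : Fin n → Matrix (Fin (M + 1)) (Fin (M + 1)) ℝ} (hJ : Good J)
    {x y : E (n + 1)} (hx : ‖x‖ = 1) (hy : ‖y‖ = 1) (hxy : x ≠ y) (k : ℕ) :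
    sp (b J x) k ⊓ (sp (b J (-y)) k)ᗮ = ⊥ := by
  rw [Submodule.eq_bot_iff]
  rintro v ⟨hv1, hv2⟩
  obtain ⟨c, hc, rfl⟩ := mem_sp_b hv1
  have h1 : ⟪G J (-y) c, G J x c⟫ = 0 :=
    (Submodule.mem_orthogonal _ _).1 hv2 _ (G_mem_sp hc)
  rw [inner_G, Q_neg, neg_mulVec, neg_dotProduct] at h1
  have h2 := Q_dot hJ x (Fin.snoc (α := fun _ => ℝ) c 0) (Fin.snoc (α := fun _ => ℝ) c 0)
  have h3 := Q_dot hJ y (Fin.snoc (α := fun _ => ℝ) c 0) (Fin.snoc (α := fun _ => ℝ) c 0)
  have h4 := Q_dot hJ (x - y) (Fin.snoc (α := fun _ => ℝ) c 0) (Fin.snoc (α := fun _ => ℝ) c 0)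
  rw [Q_sub, sub_mulVec, sub_dotProduct, dotProduct_sub, dotProduct_sub, h2, h3] at h4
  rw [hx, hy, snoc_dot] at h4
  have h5 : (Q J x *ᵥ (Fin.snoc (α := fun _ => ℝ) c 0)) ⬝ᵥ (Q J y *ᵥ (Fin.snoc (α := fun _ => ℝ) c 0))
      = (Q J y *ᵥ (Fin.snoc (α := fun _ => ℝ) c 0)) ⬝ᵥ (Q J x *ᵥ (Fin.snoc (α := fun _ => ℝ) c 0)) :=
    dotProduct_comm _ _
  have h6 : ‖x - y‖ ^ 2 * (c ⬝ᵥ c) = 0 := by linarith
  have h7 : c ⬝ᵥ c = 0 := by
    rcases mul_eq_zero.1 h6 with h | h
    · exfalso
      have : ‖x - y‖ = 0 := by simpa using h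
      exact hxy (sub_eq_zero.1 (norm_eq_zero.1 this))
    · exact h
  rw [dotProduct_self_eq_zero] at h7
  rw [h7, G_zero]

theorem continuous_Q (J : Fin n → Matrix (Fin (M + 1)) (Fin (M + 1)) ℝ) :
    Continuous (Q J) := by
  unfold Q
  have hc : ∀ i : Fin (n + 1), Continuous fun x : E (n + 1) => x i := fun i => by fun_prop
  exact Continuous.add (Continuous.smul (hc 0) continuous_const)
    (continuous_finsetSum _ fun i _ => Continuous.smul (hc i.succ) continuous_const)

theorem continuous_G (J : Fin n → Matrix (Fin (M + 1)) (Fin (M + 1)) ℝ) (c : Fin M → ℝ) :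
    Continuous fun x => G J x c := by
  unfold G
  refine (PiLp.continuous_toLp 2 _).comp (continuous_pi fun i => ?_)
  refine Fin.addCases (fun j => ?_) (fun j => ?_) i
  · simp only [Fin.append_left]
    exact continuous_const
  · simp only [Fin.append_right]
    exact (continuous_apply j).comp ((continuous_Q J).matrix_mulVec continuous_const)

theorem exists_of_good {J : Fin n → Matrix (Fin (M + 1)) (Fin (M + 1)) ℝ} (hJ : Good J)
    (hM : 1 ≤ M) : ∃ S : Set (FullFlag (M + (M + 1))), IsTransverseSphere n S := by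
  have hs : ∀ x : Metric.sphere (0 : E (n + 1)) 1, ‖(x : E (n + 1))‖ = 1 := fun x => by simp
  have hs' : ∀ x : Metric.sphere (0 : E (n + 1)) 1, ‖-(x : E (n + 1))‖ = 1 := fun x => by
    rw [norm_neg, hs]
  let f : Metric.sphere (0 : E (n + 1)) 1 → FullFlag (M + (M + 1)) := fun x =>
    mkFlag (b J x) (b J (-(x : E (n + 1)))) (orthonormal_b hJ (hs x)) (orthonormal_b hJ (hs' x))
      (inner_b_neg hJ (hs x))
  refine sphere_of_map (by omega) f ?_ ?_
  · refine continuous_mkFlag _ _ _ _ _ ?_ ?_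
    · intro i
      have h1 := (continuous_G J (Pi.single i 1)).comp
        (continuous_subtype_val (p := fun x : E (n + 1) => x ∈ Metric.sphere (0 : E (n + 1)) 1))
      exact h1.const_smul ((Real.sqrt 2)⁻¹ : ℝ)
    · intro i
      have h1 := (continuous_G J (Pi.single i 1)).comp
        (continuous_subtype_val (p := fun x : E (n + 1) => x ∈ Metric.sphere (0 : E (n + 1)) 1)).neg
      exact h1.const_smul ((Real.sqrt 2)⁻¹ : ℝ)
  · intro x y hxy
    have hxy' : (x : E (n + 1)) ≠ y := fun h => hxy (Subtype.ext h)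
    refine transverse_mkFlag _ _ _ _ _ _ ?_ ?_
    · exact fun k => sp_inf hJ (hs x) (hs y) hxy' k
    · exact fun k => sp_inf hJ (hs y) (hs x) (Ne.symm hxy') k

end Clifford

/-! ### The circle of lines in the plane -/

section Circle

/-- the projection -/
noncomputable def C (x : E 2) : Matrix (Fin 2) (Fin 2) ℝ :=
  !![(1 + x 0) / 2, x 1 / 2; x 1 / 2, (1 - x 0) / 2]

theorem C_sq {x : E 2} (hx : ‖x‖ = 1) : C x * C x = C x := by
  have h : x 0 ^ 2 + x 1 ^ 2 = 1 := by
    have := EuclideanSpace.norm_sq_eq x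
    rw [hx, Fin.sum_univ_two] at this
    simp only [Real.norm_eq_abs, sq_abs] at this
    linarith
  unfold C
  rw [Matrix.mul_fin_two]
  ext i j
  fin_cases i <;> fin_cases j <;> simp <;> nlinarith

/-- the line -/
noncomputable def line (x : E 2) : Submodule ℝ (E 2) := LinearMap.range (Matrix.toEuclideanLin (C x))

theorem proj_line {x : E 2} (hx : ‖x‖ = 1) (v : E 2) :
    (line x).starProjection v = Matrix.toEuclideanLin (C x) v := by
  apply Submodule.eq_starProjection_of_mem_orthogonal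
  · exact ⟨v, rfl⟩
  · rw [Submodule.mem_orthogonal]
    rintro _ ⟨w, rfl⟩
    have hsymm : ∀ a c : E 2, ⟪Matrix.toEuclideanLin (C x) a, c⟫ =
        ⟪a, Matrix.toEuclideanLin (C x) c⟫ := by
      intro a c
      have hT : (C x)ᴴ = C x := by
        ext i j
        fin_cases i <;> fin_cases j <;> simp [C]
      rw [← LinearMap.adjoint_inner_right, ← Matrix.toEuclideanLin_conjTranspose_eq_adjoint, hT]
    rw [hsymm, map_sub]
    have h2 : Matrix.toEuclideanLin (C x) (Matrix.toEuclideanLin (C x) v) =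
        Matrix.toEuclideanLin (C x) v := by
      rw [Matrix.toLpLin_apply, Matrix.toLpLin_apply, mulVec_mulVec, C_sq hx]
    rw [h2, sub_self, inner_zero_right]

theorem finrank_line {x : E 2} (hx : ‖x‖ = 1) : Module.finrank ℝ (line x) = 1 := by
  have hp : LinearMap.IsProj (line x) (Matrix.toEuclideanLin (C x)) := by
    refine ⟨fun v => ⟨v, rfl⟩, ?_⟩
    rintro _ ⟨w, rfl⟩
    rw [Matrix.toLpLin_apply, Matrix.toLpLin_apply, mulVec_mulVec, C_sq hx]
  have h1 := hp.trace
  have h2 : LinearMap.trace ℝ (E 2) (Matrix.toEuclideanLin (C x)) = 1 := by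
    rw [Matrix.toEuclideanLin_eq_toLin_orthonormal, LinearMap.trace_eq_matrix_trace ℝ
      (EuclideanSpace.basisFun (Fin 2) ℝ).toBasis, LinearMap.toMatrix_toLin]
    simp [C, Matrix.trace, Fin.sum_univ_two]
    ring
  rw [h2] at h1
  exact_mod_cast h1.symm

theorem line_inf {x y : E 2} (hx : ‖x‖ = 1) (hy : ‖y‖ = 1) (hxy : x ≠ y) :
    line x ⊓ line y = ⊥ := by
  rw [Submodule.eq_bot_iff]
  rintro v ⟨hv1, hv2⟩
  have h1 : Matrix.toEuclideanLin (C x) v = v := by
    rw [← proj_line hx]
    exact Submodule.starProjection_eq_self_iff.2 hv1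
  have h2 : Matrix.toEuclideanLin (C y) v = v := by
    rw [← proj_line hy]
    exact Submodule.starProjection_eq_self_iff.2 hv2
  rw [Matrix.toLpLin_apply] at h1 h2
  have a0 := congrArg (fun w : E 2 => w 0) h1
  have a1 := congrArg (fun w : E 2 => w 1) h1
  have b0 := congrArg (fun w : E 2 => w 0) h2
  have b1 := congrArg (fun w : E 2 => w 1) h2
  simp only [C, mulVec, dotProduct, Fin.sum_univ_two, Matrix.of_apply, Matrix.cons_val_zero,
    Matrix.cons_val_one, Matrix.cons_val', Matrix.cons_val_fin_one] at a0 a1 b0 b1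
  have k0 : (x 0 - y 0) * v 0 + (x 1 - y 1) * v 1 = 0 := by linarith
  have k1 : (x 1 - y 1) * v 0 - (x 0 - y 0) * v 1 = 0 := by linarith
  have k2 : ((x 0 - y 0) ^ 2 + (x 1 - y 1) ^ 2) * v 0 = 0 := by
    linear_combination (x 0 - y 0) * k0 + (x 1 - y 1) * k1
  have k3 : ((x 0 - y 0) ^ 2 + (x 1 - y 1) ^ 2) * v 1 = 0 := by
    linear_combination (x 1 - y 1) * k0 - (x 0 - y 0) * k1
  have k4 : (x 0 - y 0) ^ 2 + (x 1 - y 1) ^ 2 ≠ 0 := by
    intro h
    apply hxy
    ext i
    fin_cases i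
    · have : x 0 - y 0 = 0 := by nlinarith [sq_nonneg (x 0 - y 0), sq_nonneg (x 1 - y 1)]
      simp only [Fin.zero_eta]
      linarith
    · have : x 1 - y 1 = 0 := by nlinarith [sq_nonneg (x 0 - y 0), sq_nonneg (x 1 - y 1)]
      simp only [Fin.mk_one]
      linarith
  ext i
  fin_cases i
  · simpa [k4] using k2
  · simpa [k4] using k3

/-- the flag of a line -/
noncomputable def lineFlag (x : E 2) (hx : ‖x‖ = 1) : FullFlag 2 where
  sub := ![⊥, line x, ⊤]
  mono := by
    intro i j hij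
    fin_cases i <;> fin_cases j <;> simp at hij ⊢
  dim := by
    intro i
    fin_cases i
    · exact finrank_bot ℝ (E 2)
    · exact finrank_line hx
    · exact finrank_top ℝ (E 2) |>.trans (by rw [finrank_euclideanSpace, Fintype.card_fin])

theorem continuous_C_apply (v : E 2) :
    Continuous fun x : E 2 => Matrix.toEuclideanLin (C x) v := by
  have : (fun x : E 2 => Matrix.toEuclideanLin (C x) v) =
      fun x : E 2 => WithLp.toLp 2 (C x *ᵥ v.ofLp) := by
    funext x
    rw [Matrix.toLpLin_apply]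
  rw [this]
  refine (PiLp.continuous_toLp 2 _).comp ?_
  have hc : ∀ i : Fin 2, Continuous fun x : E 2 => x i := fun i => by fun_prop
  have hC : Continuous C := by
    unfold C
    refine continuous_matrix fun i j => ?_
    fin_cases i <;> fin_cases j <;> simp
    · exact (continuous_const.add (hc 0)).div_const 2
    · exact (hc 1).div_const 2
    · exact (hc 1).div_const 2
    · exact (continuous_const.sub (hc 0)).div_const 2
  exact hC.matrix_mulVec continuous_const

theorem exists_circle : ∃ S : Set (FullFlag 2), IsTransverseSphere 1 S := by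
  have hs : ∀ x : Metric.sphere (0 : E (1 + 1)) 1, ‖(x : E (1 + 1))‖ = 1 := fun x => by simp
  let f : Metric.sphere (0 : E (1 + 1)) 1 → FullFlag 2 := fun x => lineFlag x (hs x)
  refine sphere_of_map le_rfl f ?_ ?_
  · rw [continuous_flag_iff]
    intro i v
    fin_cases i
    · exact (continuous_const : Continuous fun _ : Metric.sphere (0 : E (1 + 1)) 1 =>
        (⊥ : Submodule ℝ (E 2)).starProjection v)
    · simp only [f, lineFlag]
      have : (fun x : Metric.sphere (0 : E (1 + 1)) 1 => (line (x : E 2)).starProjection v) =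
          fun x : Metric.sphere (0 : E (1 + 1)) 1 => Matrix.toEuclideanLin (C (x : E 2)) v := by
        funext x
        exact proj_line (hs x) v
      exact this ▸ (continuous_C_apply v).comp continuous_subtype_val
    · exact (continuous_const : Continuous fun _ : Metric.sphere (0 : E (1 + 1)) 1 =>
        (⊤ : Submodule ℝ (E 2)).starProjection v)
  · intro x y hxy i
    have hxy' : (x : E 2) ≠ y := fun h => hxy (Subtype.ext h)
    fin_cases i
    · simp [f, lineFlag]
    · exact line_inf (hs x) (hs y) hxy'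
    · have : Fin.rev (⟨2, by omega⟩ : Fin (2 + 1)) = 0 := by decide
      simp only [f, lineFlag, this]
      simp

end Circle

/-! ### The spheres -/

theorem exists_sphere {n : ℕ} (hn : 1 ≤ n) :
    ∃ S : Set (FullFlag (2 ^ (phi n + 1) - 1)), IsTransverseSphere n S := by
  obtain ⟨J, h1, h2, h3⟩ := Pool.Agent.Helper59K9.Cliff.exists_clifford n
  have hphi : 1 ≤ phi n := by
    unfold phi
    rw [Nat.one_le_iff_ne_zero, Finset.card_ne_zero]
    exact ⟨1, by simp [hn]⟩
  have h2n : 2 ≤ 2 ^ phi n := by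
    calc 2 = 2 ^ 1 := by norm_num
      _ ≤ 2 ^ phi n := Nat.pow_le_pow_right (by norm_num) hphi
  have hd : 2 ^ (phi n + 1) - 1 = (2 ^ phi n - 1) + (2 ^ phi n - 1 + 1) := by
    rw [pow_succ]
    omega
  rw [hd]
  generalize 2 ^ phi n = N at *
  obtain ⟨M, rfl⟩ : ∃ M, N = M + 1 := ⟨N - 1, by omega⟩
  exact exists_of_good (J := J) ⟨h1, h2, h3⟩ (by omega)

end Pool.Agent.Helper59K9.FlagSphere
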