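import Mathlib

set_option autoImplicit false
open scoped Classical


namespace Pool.Agent.Helper59K9.PosetDim

/-- A poset with two incomparable elements needs at least two linear orders. -/
theorem two_le {P : Type} [PartialOrder P] {x y : P} (hxy : ¬ x ≤ y) (hyx : ¬ y ≤ x) {a : ℕ}
    (h : ∃ r : Fin a → P → P → Prop,
        (∀ i, (∀ x, r i x x) ∧ (∀ x y z, r i x y → r i y z → r i x z) ∧
          (∀ x y, r i x y → r i y x → x = y) ∧ (∀ x y, r i x y ∨ r i y x)) ∧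
        ∀ x y, x ≤ y ↔ ∀ i, r i x y) : 2 ≤ a := by
  obtain ⟨r, hr, hle⟩ := h
  by_contra ha
  have h01 : a = 0 ∨ a = 1 := by omega
  rcases h01 with rfl | rfl
  · exact hxy ((hle x y).2 fun i => i.elim0)
  · rcases (hr 0).2.2.2 x y with h | h
    · exact hxy ((hle x y).2 fun i => by rw [Fin.fin_one_eq_zero i]; exact h)
    · exact hyx ((hle y x).2 fun i => by rw [Fin.fin_one_eq_zero i]; exact h)

/-- The antichain with two elements. -/
inductive A : Type
  | u : A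
  | v : A
  deriving DecidableEq

instance : Fintype A := ⟨{A.u, A.v}, fun x => by cases x <;> decide⟩

instance : PartialOrder A where
  le := Eq
  le_refl := fun _ => rfl
  le_trans := fun _ _ _ h1 h2 => h1.trans h2
  le_antisymm := fun _ _ h _ => h

instance (x y : A) : Decidable (x ≤ y) := inferInstanceAs (Decidable (x = y))

theorem A.not_le : ¬ (A.u ≤ A.v) := by decide
theorem A.not_le' : ¬ (A.v ≤ A.u) := by decide

def kA : A → ℕ
  | A.u => 0
  | A.v => 1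

def kB : Bool → ℕ
  | false => 0
  | true => 1

def key0 (x : A × (Bool × Bool)) : ℕ := 4 * kA x.1 + 2 * kB x.2.1 + kB x.2.2
def key1 (x : A × (Bool × Bool)) : ℕ := 4 * (1 - kA x.1) + 2 * kB x.2.2 + kB x.2.1

def key (i : Fin 2) (x : A × (Bool × Bool)) : ℕ := if i = 0 then key0 x else key1 x

theorem key_inj : ∀ (i : Fin 2) (x y : A × (Bool × Bool)), key i x = key i y → x = y := by
  decide

theorem key_le : ∀ (x y : A × (Bool × Bool)),
    ((x.1 = y.1 ∧ (x.2.1 ≤ y.2.1 ∧ x.2.2 ≤ y.2.2)) ↔ ∀ i : Fin 2, key i x ≤ key i y) := by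
  decide

theorem posetDim_main :
    ¬ (∀ (P Q : Type) [PartialOrder P] [PartialOrder Q], Nontrivial P → Nontrivial Q →
      (∃ d : ℕ, ∃ r : Fin d → P → P → Prop,
        (∀ i, (∀ x, r i x x) ∧ (∀ x y z, r i x y → r i y z → r i x z) ∧
          (∀ x y, r i x y → r i y x → x = y) ∧ (∀ x y, r i x y ∨ r i y x)) ∧
        ∀ x y, x ≤ y ↔ ∀ i, r i x y) →
      (∃ d : ℕ, ∃ r : Fin d → Q → Q → Prop,
        (∀ i, (∀ x, r i x x) ∧ (∀ x y z, r i x y → r i y z → r i x z) ∧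
          (∀ x y, r i x y → r i y x → x = y) ∧ (∀ x y, r i x y ∨ r i y x)) ∧
        ∀ x y, x ≤ y ↔ ∀ i, r i x y) →
      ∀ n : ℕ,
        (∃ r : Fin n → P × Q → P × Q → Prop,
          (∀ i, (∀ x, r i x x) ∧ (∀ x y z, r i x y → r i y z → r i x z) ∧
            (∀ x y, r i x y → r i y x → x = y) ∧ (∀ x y, r i x y ∨ r i y x)) ∧
          ∀ x y, x ≤ y ↔ ∀ i, r i x y) →
        ∃ a c : ℕ,
          a + c ≤ n + ((if (∃ x : P, ∀ y, x ≤ y) ∧ (∃ x : P, ∀ y, y ≤ x) then 0 else 1) +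
                       (if (∃ x : Q, ∀ y, x ≤ y) ∧ (∃ x : Q, ∀ y, y ≤ x) then 0 else 1)) ∧
          (∃ r : Fin a → P → P → Prop,
            (∀ i, (∀ x, r i x x) ∧ (∀ x y z, r i x y → r i y z → r i x z) ∧
              (∀ x y, r i x y → r i y x → x = y) ∧ (∀ x y, r i x y ∨ r i y x)) ∧
            ∀ x y, x ≤ y ↔ ∀ i, r i x y) ∧
          (∃ r : Fin c → Q → Q → Prop,
            (∀ i, (∀ x, r i x x) ∧ (∀ x y z, r i x y → r i y z → r i x z) ∧
              (∀ x y, r i x y → r i y x → x = y) ∧ (∀ x y, r i x y ∨ r i y x)) ∧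
            ∀ x y, x ≤ y ↔ ∀ i, r i x y)) := by
  intro h
  have hn1 : Nontrivial A := ⟨A.u, A.v, by decide⟩
  have hn2 : Nontrivial (Bool × Bool) := ⟨(false, false), (true, true), by decide⟩
  have hprod : ∃ r : Fin 2 → A × (Bool × Bool) → A × (Bool × Bool) → Prop,
          (∀ i, (∀ x, r i x x) ∧ (∀ x y z, r i x y → r i y z → r i x z) ∧
            (∀ x y, r i x y → r i y x → x = y) ∧ (∀ x y, r i x y ∨ r i y x)) ∧
          ∀ x y, x ≤ y ↔ ∀ i, r i x y := by
    refine ⟨fun i x y => key i x ≤ key i y, fun i => ⟨fun x => le_refl _, fun x y z h1 h2 => h1.trans h2,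
      fun x y h1 h2 => key_inj i x y (le_antisymm h1 h2), fun x y => le_total _ _⟩, fun x y => ?_⟩
    rw [← key_le x y]
    exact Iff.rfl
  have hA : ∃ d : ℕ, ∃ r : Fin d → A → A → Prop,
        (∀ i, (∀ x, r i x x) ∧ (∀ x y z, r i x y → r i y z → r i x z) ∧
          (∀ x y, r i x y → r i y x → x = y) ∧ (∀ x y, r i x y ∨ r i y x)) ∧
        ∀ x y, x ≤ y ↔ ∀ i, r i x y := by
    obtain ⟨r, hr, hle⟩ := hprod
    refine ⟨2, fun i x y => r i (x, (false, false)) (y, (false, false)), fun i => ?_, fun x y => ?_⟩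
    · obtain ⟨h1, h2, h3, h4⟩ := hr i
      exact ⟨fun x => h1 _, fun x y z => h2 _ _ _, fun x y h5 h6 => congrArg Prod.fst (h3 _ _ h5 h6),
        fun x y => h4 _ _⟩
    · rw [← hle]
      exact ⟨fun h => ⟨h, le_refl _⟩, fun h => h.1⟩
  have hB : ∃ d : ℕ, ∃ r : Fin d → (Bool × Bool) → (Bool × Bool) → Prop,
        (∀ i, (∀ x, r i x x) ∧ (∀ x y z, r i x y → r i y z → r i x z) ∧
          (∀ x y, r i x y → r i y x → x = y) ∧ (∀ x y, r i x y ∨ r i y x)) ∧
        ∀ x y, x ≤ y ↔ ∀ i, r i x y := by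
    obtain ⟨r, hr, hle⟩ := hprod
    refine ⟨2, fun i x y => r i (A.u, x) (A.u, y), fun i => ?_, fun x y => ?_⟩
    · obtain ⟨h1, h2, h3, h4⟩ := hr i
      exact ⟨fun x => h1 _, fun x y z => h2 _ _ _, fun x y h5 h6 => congrArg Prod.snd (h3 _ _ h5 h6),
        fun x y => h4 _ _⟩
    · rw [← hle]
      exact ⟨fun h => ⟨le_refl _, h⟩, fun h => h.2⟩
  obtain ⟨a, c, hac, ha, hc⟩ := h A (Bool × Bool) hn1 hn2 hA hB 2 hprod
  have ha2 : 2 ≤ a := two_le A.not_le A.not_le' ha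
  have hc2 : 2 ≤ c := two_le (x := ((true, false) : Bool × Bool)) (y := (false, true))
    (by decide) (by decide) hc
  have hb : (∃ x : Bool × Bool, ∀ y, x ≤ y) ∧ (∃ x : Bool × Bool, ∀ y, y ≤ x) :=
    ⟨⟨(false, false), by decide⟩, ⟨(true, true), by decide⟩⟩
  rw [if_pos hb] at hac
  split_ifs at hac <;> omega

end Pool.Agent.Helper59K9.PosetDim
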